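import Pool.Agent.H458.AU.Def

/-!
# Many irreducible cubics `X ^ 3 + a X + b` over a finite field
-/

set_option autoImplicit false

open Polynomial
open scoped Classical

namespace Pool.Agent.H980.AU458

section

variable {k : Type} [Field k] [Fintype k]

/-- the cubic -/
noncomputable def cu (p : k × k) : k[X] := X ^ 3 + C p.1 * X + C p.2

/-- the set of the zeros -/
noncomputable def Rt (p : k × k) : Finset k :=
  Finset.univ.filter (fun c => c ^ 3 + p.1 * c + p.2 = 0)

omit [Fintype k] in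
lemma cu_natDegree (p : k × k) : (cu p).natDegree = 3 := by
  unfold cu
  compute_degree!

omit [Fintype k] in
lemma cu_ne (p : k × k) : cu p ≠ 0 := by
  intro h
  have h1 := cu_natDegree p
  rw [h, natDegree_zero] at h1
  omega

omit [Fintype k] in
lemma cu_eval (p : k × k) (c : k) : (cu p).eval c = c ^ 3 + p.1 * c + p.2 := by
  unfold cu
  simp

lemma Rt_eq (p : k × k) : Rt p = (cu p).roots.toFinset := by
  ext c
  rw [Rt, Finset.mem_filter, Multiset.mem_toFinset, mem_roots (cu_ne p), IsRoot.def, cu_eval]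
  simp

lemma Rt_card (p : k × k) : (Rt p).card ≤ 3 := by
  rw [Rt_eq, ← cu_natDegree p]
  exact (Multiset.toFinset_card_le _).trans (card_roots' _)

lemma irr_iff (p : k × k) : Irreducible (cu p) ↔ (Rt p).card = 0 := by
  rw [irreducible_iff_roots_eq_zero_of_degree_le_three (by rw [cu_natDegree]; omega)
    (by rw [cu_natDegree]), Finset.card_eq_zero, Rt_eq, Multiset.toFinset_eq_empty]

lemma sum_one : ∑ p : k × k, ((Rt p).card : ℤ) = (Fintype.card k : ℤ) * Fintype.card k := by
  have h1 : ∀ p : k × k, ((Rt p).card : ℤ) =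
      ∑ c : k, if p.2 = -(c ^ 3 + p.1 * c) then (1 : ℤ) else 0 := by
    intro p
    rw [Rt, Finset.card_filter, Nat.cast_sum]
    refine Finset.sum_congr rfl (fun c _ => ?_)
    by_cases h : c ^ 3 + p.1 * c + p.2 = 0
    · rw [if_pos h, if_pos (by linear_combination h)]
      simp
    · rw [if_neg h, if_neg (fun h2 => h (by rw [h2]; ring))]
      simp
  simp_rw [h1]
  rw [Finset.sum_comm]
  have h2 : ∀ c : k, ∑ p : k × k, (if p.2 = -(c ^ 3 + p.1 * c) then (1 : ℤ) else 0) =
      Fintype.card k := by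
    intro c
    rw [Fintype.sum_prod_type]
    have h3 : ∀ a : k, ∑ b : k, (if b = -(c ^ 3 + a * c) then (1 : ℤ) else 0) = 1 := by
      intro a
      rw [Finset.sum_ite_eq']
      simp
    show ∑ a : k, ∑ b : k, (if b = -(c ^ 3 + a * c) then (1 : ℤ) else 0) = _
    simp_rw [h3]
    simp
  simp_rw [h2]
  simp

lemma sum_two : (Fintype.card k : ℤ) * Fintype.card k - Fintype.card k ≤
    ∑ p : k × k, ((Rt p).card * (Rt p).card - (Rt p).card : ℤ) := by
  have h1 : ∀ p : k × k, ((Rt p).card * (Rt p).card - (Rt p).card : ℤ) =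
      ∑ x : k × k, if x ∈ (Rt p).offDiag then (1 : ℤ) else 0 := by
    intro p
    have h2 : (∑ x : k × k, if x ∈ (Rt p).offDiag then (1 : ℤ) else 0) =
        ((Rt p).offDiag.card : ℤ) := by
      rw [Finset.sum_ite_mem, Finset.univ_inter, Finset.sum_const, nsmul_eq_mul, mul_one]
    rw [h2, Finset.offDiag_card, Nat.cast_sub (Nat.le_mul_self _), Nat.cast_mul]
  simp_rw [h1]
  rw [Finset.sum_comm]
  have h3 : (Fintype.card k : ℤ) * Fintype.card k - Fintype.card k =
      ∑ x : k × k, if x ∈ (Finset.univ : Finset k).offDiag then (1 : ℤ) else 0 := by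
    rw [Finset.sum_ite_mem, Finset.univ_inter, Finset.sum_const, nsmul_eq_mul, mul_one,
      Finset.offDiag_card, Nat.cast_sub (Nat.le_mul_self _), Nat.cast_mul, Finset.card_univ]
  rw [h3]
  refine Finset.sum_le_sum (fun x _ => ?_)
  by_cases hx : x ∈ (Finset.univ : Finset k).offDiag
  · rw [if_pos hx]
    rw [Finset.mem_offDiag] at hx
    have hmem : x ∈ (Rt ((-(x.1 ^ 2 + x.1 * x.2 + x.2 ^ 2), x.1 * x.2 * (x.1 + x.2)) : k × k)).offDiag := by
      rw [Finset.mem_offDiag, Rt, Finset.mem_filter, Finset.mem_filter]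
      refine ⟨⟨Finset.mem_univ _, ?_⟩, ⟨Finset.mem_univ _, ?_⟩, hx.2.2⟩
      · show x.1 ^ 3 + -(x.1 ^ 2 + x.1 * x.2 + x.2 ^ 2) * x.1 + x.1 * x.2 * (x.1 + x.2) = 0
        ring
      · show x.2 ^ 3 + -(x.1 ^ 2 + x.1 * x.2 + x.2 ^ 2) * x.2 + x.1 * x.2 * (x.1 + x.2) = 0
        ring
    have h5 := Finset.single_le_sum (f := fun p : k × k => if x ∈ (Rt p).offDiag then (1 : ℤ) else 0)
      (s := Finset.univ) (fun p _ => by
        show (0 : ℤ) ≤ if x ∈ (Rt p).offDiag then (1 : ℤ) else 0
        split_ifs <;> norm_num)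
      (Finset.mem_univ ((-(x.1 ^ 2 + x.1 * x.2 + x.2 ^ 2), x.1 * x.2 * (x.1 + x.2)) : k × k))
    have h6 : (if x ∈ (Rt ((-(x.1 ^ 2 + x.1 * x.2 + x.2 ^ 2), x.1 * x.2 * (x.1 + x.2)) :
        k × k)).offDiag then (1 : ℤ) else 0) = 1 := if_pos hmem
    calc (1 : ℤ) = _ := h6.symm
      _ ≤ _ := h5
  · rw [if_neg hx]
    refine Finset.sum_nonneg (fun p _ => ?_)
    split_ifs <;> norm_num

lemma count : (Fintype.card k : ℤ) * Fintype.card k - Fintype.card k ≤
    3 * ((Finset.univ.filter (fun p : k × k => Irreducible (cu p))).card : ℤ) := by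
  have h1 : ∀ p : k × k, (3 : ℤ) - 3 * ((Rt p).card : ℤ) +
      ((Rt p).card * (Rt p).card - (Rt p).card : ℤ) ≤
      3 * (if Irreducible (cu p) then (1 : ℤ) else 0) := by
    intro p
    have h2 := Rt_card p
    by_cases h : Irreducible (cu p)
    · rw [if_pos h, (irr_iff p).1 h]
      norm_num
    · rw [if_neg h]
      have h3 : (Rt p).card ≠ 0 := fun h4 => h ((irr_iff p).2 h4)
      have h5 : (Rt p).card = 1 ∨ (Rt p).card = 2 ∨ (Rt p).card = 3 := by omega
      rcases h5 with h5 | h5 | h5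
      · rw [h5]; norm_num
      · rw [h5]; norm_num
      · rw [h5]; norm_num
  have h2 := Finset.sum_le_sum (fun (p : k × k) (_ : p ∈ Finset.univ) => h1 p)
  rw [Finset.sum_add_distrib, Finset.sum_sub_distrib, ← Finset.mul_sum, ← Finset.mul_sum,
    sum_one] at h2
  have h3 : ∑ p : k × k, (3 : ℤ) = 3 * ((Fintype.card k : ℤ) * Fintype.card k) := by
    rw [Finset.sum_const, Finset.card_univ, Fintype.card_prod, nsmul_eq_mul, Nat.cast_mul]
    ring
  have h4 : ∑ p : k × k, (if Irreducible (cu p) then (1 : ℤ) else 0) =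
      ((Finset.univ.filter (fun p : k × k => Irreducible (cu p))).card : ℤ) := by
    rw [Finset.card_filter, Nat.cast_sum]
    refine Finset.sum_congr rfl (fun p _ => ?_)
    split_ifs <;> simp
  rw [h3, h4] at h2
  have h5 := sum_two (k := k)
  linarith

end

theorem irc : Pool.Agent.H458.AU.S_IRC := by
  intro k _ _ h3
  have : Fintype k := Fintype.ofFinite k
  have h1 := count (k := k)
  have e1 : {p : k × k | Irreducible (X ^ 3 + C p.1 * X + C p.2 : k[X])} =
      ((Finset.univ.filter (fun p : k × k => Irreducible (cu p)) : Finset (k × k)) :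
        Set (k × k)) := by
    ext p
    simp only [Set.mem_ofPred_eq, Finset.coe_filter, Finset.mem_univ, true_and]
    rfl
  rw [e1, Set.ncard_coe_finset, Nat.card_eq_fintype_card]
  set N := (Finset.univ.filter (fun p : k × k => Irreducible (cu p))).card with hN
  set n := Fintype.card k with hn
  have hn2 : 2 ≤ n := Fintype.one_lt_card
  have hn3 : n ≠ 3 := by
    intro h
    have h4 : ((Fintype.card k : ℕ) : k) = 0 := by
      exact Nat.cast_card_eq_zero k
    rw [← hn, h] at h4
    exact h3 (by exact_mod_cast h4)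
  have h5 : (n : ℤ) * n - n ≤ 3 * (N : ℤ) := h1
  have h6 : (n : ℤ) ^ 2 ≤ 4 * (N : ℤ) := by
    rcases Nat.lt_or_ge n 4 with h | h
    · have h7 : n = 2 := by omega
      rw [h7] at h5 ⊢
      norm_num at h5 ⊢
      omega
    · have h8 : (4 : ℤ) ≤ n := by exact_mod_cast h
      nlinarith
  exact_mod_cast h6

end Pool.Agent.H980.AU458
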